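import Mathlib

/-!
# Permutation-sum Pfaffians

`pfJ n A` is the sum over all permutations of `Fin n × Fin 2` defining `2^n n!` times the Pfaffian.
We prove the congruence formula and the evaluation for a tridiagonal matrix.
-/

set_option autoImplicit false

namespace Pool.Agent.J4H74.Pfa

open Matrix Finset

variable {R : Type*} [CommRing R]

/-- The permutation sum on pairs. -/
def pfJ (n : ℕ) (A : Matrix (Fin n × Fin 2) (Fin n × Fin 2) R) : R :=
  ∑ σ : Equiv.Perm (Fin n × Fin 2), ((Equiv.Perm.sign σ : ℤ) : R) *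
    ∏ i : Fin n, A (σ (i, 0)) (σ (i, 1))

/-- Functions on pairs. -/
def cur (n : ℕ) (M : Type*) : (Fin n → M × M) ≃ (Fin n × Fin 2 → M) where
  toFun g := fun p => if p.2 = 0 then (g p.1).1 else (g p.1).2
  invFun f := fun i => (f (i, 0), f (i, 1))
  left_inv g := by
    funext i
    simp
  right_inv f := by
    funext p
    obtain ⟨i, b⟩ := p
    fin_cases b <;> simp

theorem pfJ_conj (n : ℕ) (A B : Matrix (Fin n × Fin 2) (Fin n × Fin 2) R) :
    pfJ n (B * A * Bᵀ) = B.det * pfJ n A := by
  classical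
  have hentry : ∀ x y, (B * A * Bᵀ) x y =
      ∑ p : (Fin n × Fin 2) × (Fin n × Fin 2), B x p.1 * A p.1 p.2 * B y p.2 := by
    intro x y
    have h1 : (∑ p : (Fin n × Fin 2) × (Fin n × Fin 2), B x p.1 * A p.1 p.2 * B y p.2) =
        ∑ l : Fin n × Fin 2, ∑ k : Fin n × Fin 2, B x k * A k l * B y l :=
      Fintype.sum_prod_type_right (f := fun p : (Fin n × Fin 2) × (Fin n × Fin 2) =>
        B x p.1 * A p.1 p.2 * B y p.2)
    rw [h1, Matrix.mul_apply]
    refine Finset.sum_congr rfl fun l _ => ?_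
    rw [Matrix.mul_apply, Finset.sum_mul]
    refine Finset.sum_congr rfl fun k _ => ?_
    rw [Matrix.transpose_apply]
  have hprod : ∀ σ : Equiv.Perm (Fin n × Fin 2),
      ∏ i : Fin n, (B * A * Bᵀ) (σ (i, 0)) (σ (i, 1)) =
      ∑ f : Fin n × Fin 2 → Fin n × Fin 2,
        (∏ x, B (σ x) (f x)) * ∏ i : Fin n, A (f (i, 0)) (f (i, 1)) := by
    intro σ
    simp only [hentry]
    rw [Finset.prod_univ_sum]
    rw [← (cur n (Fin n × Fin 2)).sum_comp]
    rw [Fintype.piFinset_univ]
    refine Finset.sum_congr rfl fun g _ => ?_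
    rw [Fintype.prod_prod_type, ← Finset.prod_mul_distrib]
    refine Finset.prod_congr rfl fun i _ => ?_
    rw [Fin.prod_univ_two]
    simp only [cur, Equiv.coe_fn_mk, if_true, one_ne_zero, if_false]
    ring
  have hdet : ∀ f : Fin n × Fin 2 → Fin n × Fin 2,
      ∑ σ : Equiv.Perm (Fin n × Fin 2), ((Equiv.Perm.sign σ : ℤ) : R) * ∏ x, B (σ x) (f x) =
      (B.submatrix id f).det := by
    intro f
    rw [Matrix.det_apply']
    rfl
  have h1 : pfJ n (B * A * Bᵀ) = ∑ f : Fin n × Fin 2 → Fin n × Fin 2,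
      (B.submatrix id f).det * ∏ i : Fin n, A (f (i, 0)) (f (i, 1)) := by
    unfold pfJ
    simp only [hprod, ← hdet, Finset.mul_sum, Finset.sum_mul]
    rw [Finset.sum_comm]
    refine Finset.sum_congr rfl fun f _ => Finset.sum_congr rfl fun σ _ => ?_
    ring
  rw [h1]
  unfold pfJ
  rw [Finset.mul_sum]
  symm
  refine Fintype.sum_of_injective (fun σ : Equiv.Perm (Fin n × Fin 2) => (σ : Fin n × Fin 2 → Fin n × Fin 2))
    (fun σ τ h => Equiv.ext (congrFun h)) _ _ ?_ ?_
  · intro f hf
    have hni : ¬ Function.Injective f := by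
      intro hi
      exact hf ⟨Equiv.ofBijective f ((Finite.injective_iff_bijective).1 hi), by ext <;> rfl⟩
    rw [Function.not_injective_iff] at hni
    obtain ⟨a, b, hab, hne⟩ := hni
    rw [Matrix.det_zero_of_column_eq hne (fun k => by simp [hab]), zero_mul]
  · intro σ
    rw [Matrix.det_permute']
    ring

/-- flipping one pair changes nothing for antisymmetrised factors -/
theorem pfJ_split (n : ℕ) (A W : Matrix (Fin n × Fin 2) (Fin n × Fin 2) R)
    (hA : ∀ x y, A x y = W x y - W y x) : pfJ n A = 2 ^ n * pfJ n W := by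
  classical
  -- flip the pairs in `s`
  let fl : Finset (Fin n) → Equiv.Perm (Fin n × Fin 2) := fun s =>
    Equiv.prodCongrRight (fun i => if i ∈ s then Equiv.swap 0 1 else 1)
  have hsign : ∀ s, ((Equiv.Perm.sign (fl s) : ℤ) : R) = (-1) ^ s.card := by
    intro s
    simp only [fl]
    rw [Equiv.Perm.sign_prodCongrRight]
    have : (∏ k : Fin n, Equiv.Perm.sign (if k ∈ s then Equiv.swap (0 : Fin 2) 1 else 1)) =
        (-1) ^ s.card := by
      rw [← Finset.prod_const, ← Finset.prod_subset (Finset.subset_univ s)]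
      · refine Finset.prod_congr rfl fun k hk => ?_
        rw [if_pos hk, Equiv.Perm.sign_swap]
        decide
      · intro k _ hk
        rw [if_neg hk, Equiv.Perm.sign_one]
    rw [this]
    push_cast
    rfl
  have hterm : ∀ s : Finset (Fin n),
      ∑ σ : Equiv.Perm (Fin n × Fin 2), ((Equiv.Perm.sign σ : ℤ) : R) *
        ((∏ i ∈ s, - W (σ (i, 1)) (σ (i, 0))) * ∏ i ∈ univ \ s, W (σ (i, 0)) (σ (i, 1))) =
      pfJ n W := by
    intro s
    unfold pfJ
    refine (Equiv.sum_comp (Equiv.mulRight (fl s)) _).symm.trans ?_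
    refine Finset.sum_congr rfl fun σ _ => ?_
    rw [Equiv.coe_mulRight, Equiv.Perm.sign_mul, Units.val_mul, Int.cast_mul, hsign]
    have h1 : ∏ i ∈ s, - W ((σ * fl s) (i, 1)) ((σ * fl s) (i, 0)) =
        (-1) ^ s.card * ∏ i ∈ s, W (σ (i, 0)) (σ (i, 1)) := by
      rw [← Finset.prod_const, ← Finset.prod_mul_distrib]
      refine Finset.prod_congr rfl fun i hi => ?_
      simp [fl, hi]
    have h2 : ∏ i ∈ univ \ s, W ((σ * fl s) (i, 0)) ((σ * fl s) (i, 1)) =
        ∏ i ∈ univ \ s, W (σ (i, 0)) (σ (i, 1)) := by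
      refine Finset.prod_congr rfl fun i hi => ?_
      have hi' : i ∉ s := (Finset.mem_sdiff.1 hi).2
      simp [fl, hi']
    rw [h1, h2]
    have h3 : (∏ i ∈ s, W (σ (i, 0)) (σ (i, 1))) * ∏ i ∈ univ \ s, W (σ (i, 0)) (σ (i, 1)) =
        ∏ i : Fin n, W (σ (i, 0)) (σ (i, 1)) := by
      rw [mul_comm]
      exact Finset.prod_sdiff (Finset.subset_univ s)
    have h4 : ((-1 : R) ^ s.card) * (-1) ^ s.card = 1 := by
      rw [← mul_pow]
      simp
    rw [← h3]
    linear_combination (((Equiv.Perm.sign σ : ℤ) : R) * ((∏ i ∈ s, W (σ (i, 0)) (σ (i, 1))) *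
      ∏ i ∈ univ \ s, W (σ (i, 0)) (σ (i, 1)))) * h4
  have hexp : pfJ n A = ∑ s : Finset (Fin n),
      ∑ σ : Equiv.Perm (Fin n × Fin 2), ((Equiv.Perm.sign σ : ℤ) : R) *
        ((∏ i ∈ s, - W (σ (i, 1)) (σ (i, 0))) * ∏ i ∈ univ \ s, W (σ (i, 0)) (σ (i, 1))) := by
    rw [Finset.sum_comm]
    unfold pfJ
    refine Finset.sum_congr rfl fun σ _ => ?_
    rw [← Finset.mul_sum]
    congr 1
    have := Finset.prod_add (fun i : Fin n => - W (σ (i, 1)) (σ (i, 0)))
      (fun i : Fin n => W (σ (i, 0)) (σ (i, 1))) univ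
    rw [Finset.powerset_univ] at this
    rw [← this]
    refine Finset.prod_congr rfl fun i _ => ?_
    rw [hA]
    ring
  rw [hexp, Finset.sum_congr rfl (fun s _ => hterm s), Finset.sum_const, Finset.card_univ,
    Fintype.card_finset, Fintype.card_fin, nsmul_eq_mul]
  push_cast
  rfl

/-- The position `2 i + b`. -/
def pos {n : ℕ} (x : Fin n × Fin 2) : ℕ := 2 * x.1 + x.2

/-- Evaluation of the permutation sum when only entries next to the diagonal are present. -/
theorem pfJ_upper (n : ℕ) (W : Matrix (Fin n × Fin 2) (Fin n × Fin 2) R)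
    (hW : ∀ x y, pos y ≠ pos x + 1 → W x y = 0) :
    pfJ n W = (n.factorial : R) * ∏ i : Fin n, W (i, 0) (i, 1) := by
  classical
  have hcard : (n.factorial : R) * ∏ i : Fin n, W (i, 0) (i, 1) =
      ∑ π : Equiv.Perm (Fin n), ∏ i : Fin n, W (i, 0) (i, 1) := by
    rw [Finset.sum_const, Finset.card_univ, Fintype.card_perm, Fintype.card_fin, nsmul_eq_mul]
  rw [hcard]
  unfold pfJ
  symm
  refine Fintype.sum_of_injective
    (fun π : Equiv.Perm (Fin n) => (Equiv.prodCongrLeft (fun _ : Fin 2 => π) :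
      Equiv.Perm (Fin n × Fin 2))) ?_ _ _ ?_ ?_
  · intro π π' h
    ext i
    have := congrArg (fun e : Equiv.Perm (Fin n × Fin 2) => (e (i, 0)).1) h
    simpa using congrArg Fin.val this
  · intro σ hσ
    by_contra hne
    apply hσ
    have hall : ∀ i : Fin n, pos (σ (i, 1)) = pos (σ (i, 0)) + 1 := by
      intro i
      by_contra hc
      apply hne
      rw [Finset.prod_eq_zero (Finset.mem_univ i) (hW _ _ hc), mul_zero]
    -- every even position is a first member
    have hev : ∀ k : ℕ, ∀ hk : k < n, (σ.symm (⟨k, hk⟩, 0)).2 = 0 := by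
      intro k
      induction k with
      | zero =>
        intro hk
        by_contra hc
        have h1 : (σ.symm (⟨0, hk⟩, 0)).2 = 1 := by
          have := Fin.exists_fin_two.1 ⟨(σ.symm (⟨0, hk⟩, 0)).2, rfl⟩
          omega
        have h2 := hall (σ.symm (⟨0, hk⟩, 0)).1
        have h3 : ((σ.symm (⟨0, hk⟩, 0)).1, (1 : Fin 2)) = σ.symm (⟨0, hk⟩, 0) := by
          rw [← h1]
        rw [h3, Equiv.apply_symm_apply] at h2
        simp [pos] at h2
      | succ k ih =>
        intro hk
        have ih' := ih (by omega)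
        by_contra hc
        have h1 : (σ.symm (⟨k + 1, hk⟩, 0)).2 = 1 := by
          have := Fin.exists_fin_two.1 ⟨(σ.symm (⟨k + 1, hk⟩, 0)).2, rfl⟩
          omega
        have h2 := hall (σ.symm (⟨k + 1, hk⟩, 0)).1
        have h3 : ((σ.symm (⟨k + 1, hk⟩, 0)).1, (1 : Fin 2)) = σ.symm (⟨k + 1, hk⟩, 0) := by
          rw [← h1]
        rw [h3, Equiv.apply_symm_apply] at h2
        -- the element before is both a first and a second member
        have h4 := hall (σ.symm (⟨k, by omega⟩, 0)).1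
        have h5 : ((σ.symm (⟨k, by omega⟩, 0)).1, (0 : Fin 2)) =
            σ.symm ((⟨k, by omega⟩ : Fin n), 0) := Prod.ext rfl ih'.symm
        rw [h5, Equiv.apply_symm_apply] at h4
        have hpi : ∀ x y : Fin n × Fin 2, pos x = pos y → x = y := by
          rintro ⟨i, b⟩ ⟨j, c⟩ h
          simp only [pos] at h
          have hb := b.2
          have hc := c.2
          ext <;> simp only <;> omega
        have h6 : σ ((σ.symm (⟨k, by omega⟩, 0)).1, 1) =
            σ ((σ.symm (⟨k + 1, hk⟩, 0)).1, 0) := by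
          apply hpi
          simp only [pos] at h2 h4 ⊢
          simp at h2 h4
          omega
        have h7 := congrArg Prod.snd (σ.injective h6)
        simp at h7
    have hev' : ∀ j : Fin n, (σ.symm (j, 0)).2 = 0 := fun j => hev j.1 j.2
    have hpi : ∀ x y : Fin n × Fin 2, pos x = pos y → x = y := by
      rintro ⟨i, b⟩ ⟨j, c⟩ h
      simp only [pos] at h
      have hb := b.2
      have hc := c.2
      ext <;> simp only <;> omega
    have hev1 : ∀ j : Fin n, σ ((σ.symm (j, 0)).1, 0) = (j, 0) := by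
      intro j
      have : ((σ.symm (j, 0)).1, (0 : Fin 2)) = σ.symm (j, 0) := Prod.ext rfl (hev' j).symm
      rw [this, Equiv.apply_symm_apply]
    have hod1 : ∀ j : Fin n, σ ((σ.symm (j, 0)).1, 1) = (j, 1) := by
      intro j
      apply hpi
      rw [hall, hev1]
      simp [pos]
    have hinj : Function.Injective (fun j : Fin n => (σ.symm (j, 0)).1) := by
      intro j j' h
      have h1 := hev1 j
      have h2 := hev1 j'
      simp only at h
      rw [h, h2] at h1
      exact (congrArg Prod.fst h1).symm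
    let π' : Equiv.Perm (Fin n) := Equiv.ofBijective _ ((Finite.injective_iff_bijective).1 hinj)
    refine ⟨π'.symm, ?_⟩
    simp only
    have hkey : ∀ i : Fin n, (σ.symm (π'.symm i, 0)).1 = i := fun i => π'.apply_symm_apply i
    ext x : 1
    obtain ⟨i, b⟩ := x
    rw [Equiv.prodCongrLeft_apply]
    have e0 := hev1 (π'.symm i)
    have e1 := hod1 (π'.symm i)
    rw [hkey i] at e0 e1
    fin_cases b
    · exact e0.symm
    · exact e1.symm
  · intro π
    simp only [Equiv.prodCongrLeft_apply]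
    rw [Equiv.Perm.sign_prodCongrLeft, Fin.prod_univ_two, Int.units_mul_self]
    rw [Units.val_one, Int.cast_one, one_mul]
    exact (Equiv.prod_comp π (fun i => W (i, 0) (i, 1))).symm

end Pool.Agent.J4H74.Pfa
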