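import Pool.Agent.J4H74.Pfa.Gram

/-!
# Chebyshev-type polynomials and the constant term functionals
-/

set_option autoImplicit false

namespace Pool.Agent.J4H74.Pfa

open Matrix Finset Polynomial

section abs

variable {R : Type*} [CommRing R] (a c : R)

/-- `q k` is `u^k + v^k` as a polynomial in `x = c + u + v`, where `u v = a`. -/
noncomputable def q : ℕ → R[X]
  | 0 => 2
  | 1 => X - C c
  | (k + 2) => (X - C c) * q (k + 1) - C a * q k

theorem q_zero : q a c 0 = 2 := rfl
theorem q_one : q a c 1 = X - C c := rfl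
theorem q_succ (k : ℕ) : q a c (k + 2) = (X - C c) * q a c (k + 1) - C a * q a c k := rfl

theorem q_monic [Nontrivial R] : ∀ k : ℕ, (q a c (k + 1)).Monic ∧ (q a c (k + 1)).natDegree = k + 1 := by
  intro k
  induction k using Nat.strong_induction_on with
  | _ k ih =>
    match k with
    | 0 => exact ⟨by rw [q_one]; exact monic_X_sub_C c, by rw [zero_add, q_one, natDegree_X_sub_C]⟩
    | 1 =>
      have h1 : ((X - C c) * (X - C c) : R[X]).Monic := (monic_X_sub_C c).mul (monic_X_sub_C c)
      have h2 : ((X - C c) * (X - C c) : R[X]).natDegree = 2 := by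
        rw [(monic_X_sub_C c).natDegree_mul (monic_X_sub_C c), natDegree_X_sub_C]
      have h3 : q a c (1 + 1) = (X - C c) * (X - C c) - C (a * 2) := by
        rw [q_succ, q_one, q_zero, map_mul]
        rfl
      have h4 : (C (a * 2) : R[X]).degree < ((X - C c) * (X - C c) : R[X]).degree := by
        rw [Polynomial.degree_eq_natDegree h1.ne_zero, h2]
        exact lt_of_le_of_lt degree_C_le (by norm_num)
      rw [h3]
      refine ⟨h1.sub_of_left h4, ?_⟩
      rw [natDegree_sub_eq_left_of_natDegree_lt, h2]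
      rw [h2, natDegree_C]
      norm_num
    | (k + 2) =>
      obtain ⟨m1, d1⟩ := ih (k + 1) (by omega)
      obtain ⟨m0, d0⟩ := ih k (by omega)
      have h1 : ((X - C c) * q a c (k + 2)).Monic := (monic_X_sub_C c).mul m1
      have h2 : ((X - C c) * q a c (k + 2)).natDegree = k + 3 := by
        rw [(monic_X_sub_C c).natDegree_mul m1, natDegree_X_sub_C, d1]
        omega
      have h5 : (C a * q a c (k + 1)).natDegree ≤ k + 1 := by
        refine (natDegree_C_mul_le _ _).trans ?_
        rw [d0]
      have h4 : (C a * q a c (k + 1)).degree < ((X - C c) * q a c (k + 2)).degree := by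
        rw [Polynomial.degree_eq_natDegree h1.ne_zero, h2]
        refine lt_of_le_of_lt (degree_le_natDegree) ?_
        exact_mod_cast (by omega : (C a * q a c (k + 1)).natDegree < k + 3)
      have h3 : q a c (k + 2 + 1) = (X - C c) * q a c (k + 2) - C a * q a c (k + 1) := q_succ a c (k + 1)
      rw [h3]
      refine ⟨h1.sub_of_left h4, ?_⟩
      rw [natDegree_sub_eq_left_of_natDegree_lt, h2]
      rw [h2]
      omega

variable {S : Type*} [CommRing S] [Algebra R S] (u v : S)

theorem q_eval (huv : u * v = algebraMap R S a) (k : ℕ) :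
    aeval (algebraMap R S c + u + v) (q a c k) = u ^ k + v ^ k := by
  induction k using Nat.strong_induction_on with
  | _ k ih =>
    match k with
    | 0 =>
      rw [q_zero, pow_zero, pow_zero]
      have : (2 : R[X]) = 1 + 1 := by norm_num
      rw [this, map_add, map_one]
    | 1 => rw [q_one]; simp; ring
    | (k + 2) =>
      rw [q_succ, map_sub, map_mul, map_mul, ih (k + 1) (by omega), ih k (by omega), map_sub,
        aeval_X, aeval_C, aeval_C, ← huv]
      ring

theorem q_deriv (huv : u * v = algebraMap R S a) (k : ℕ) :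
    aeval (algebraMap R S c + u + v) (derivative (q a c k)) * (u - v) = k * (u ^ k - v ^ k) := by
  induction k using Nat.strong_induction_on with
  | _ k ih =>
    match k with
    | 0 => rw [q_zero]; simp
    | 1 => rw [q_one]; simp
    | (k + 2) =>
      have h1 := ih (k + 1) (by omega)
      have h0 := ih k (by omega)
      have e1 := q_eval a c u v huv (k + 1)
      have e2 : derivative (q a c (k + 2)) = q a c (k + 1) + (X - C c) * derivative (q a c (k + 1))
          - C a * derivative (q a c k) := by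
        rw [q_succ, derivative_sub, derivative_mul, derivative_mul, derivative_C, zero_mul,
          zero_add, derivative_sub, derivative_X, derivative_C, sub_zero, one_mul]
      rw [e2, map_sub, map_add, map_mul, map_mul, e1, map_sub, aeval_X, aeval_C, aeval_C, ← huv]
      push_cast at h1 h0 ⊢
      linear_combination (u + v) * h1 - (u * v) * h0

end abs

section laurent

open LaurentPolynomial

variable {R : Type*} [CommRing R] (a c : R)

/-- coefficient functional on Laurent polynomials -/
noncomputable def cf (m : ℤ) : R[T;T⁻¹] →ₗ[R] R where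
  toFun f := f.coeff m
  map_add' _ _ := rfl
  map_smul' _ _ := rfl

noncomputable def uu : R[T;T⁻¹] := T 1

noncomputable def vv : R[T;T⁻¹] := LaurentPolynomial.C a * T (-1)

theorem uv_eq : (uu : R[T;T⁻¹]) * vv a = algebraMap R R[T;T⁻¹] a := by
  rw [uu, vv, mul_left_comm, ← T_add]
  simp

theorem uv_pow (i j : ℕ) : (uu : R[T;T⁻¹]) ^ i * vv a ^ j =
    LaurentPolynomial.C (a ^ j) * T ((i : ℤ) - (j : ℤ)) := by
  rw [uu, vv, mul_pow, T_pow, T_pow, mul_left_comm, ← T_add, ← map_pow]
  congr 2
  ring

theorem cf_uv (m : ℤ) (i j : ℕ) : cf m ((uu : R[T;T⁻¹]) ^ i * vv a ^ j) =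
    if (i : ℤ) - j = m then a ^ j else 0 := by
  rw [uv_pow, ← LaurentPolynomial.single_eq_C_mul_T]
  change (AddMonoidAlgebra.coeff (AddMonoidAlgebra.single ((i : ℤ) - j) (a ^ j))) m = _
  rw [AddMonoidAlgebra.coeff_single, Finsupp.single_apply]

theorem cf_u (m : ℤ) (i : ℕ) : cf m ((uu : R[T;T⁻¹]) ^ i) = if (i : ℤ) = m then 1 else 0 := by
  have := cf_uv (0 : R) m i 0
  simpa using this

theorem cf_v (m : ℤ) (j : ℕ) : cf m (vv a ^ j) = if -(j : ℤ) = m then a ^ j else 0 := by
  have := cf_uv a m 0 j
  simpa using this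

/-- the semicircle functional -/
noncomputable def LA (w : R) : R[X] →ₗ[R] R where
  toFun f := w * cf 1 (aeval (algebraMap R R[T;T⁻¹] c + uu + vv a) f * (uu - vv a))
  map_add' f g := by rw [map_add, add_mul, map_add, mul_add]
  map_smul' r f := by
    rw [map_smul, smul_mul_assoc, map_smul, smul_eq_mul, RingHom.id_apply, smul_eq_mul]
    ring

theorem LA_apply (w : R) (f : R[X]) :
    LA a c w f = w * cf 1 (aeval (algebraMap R R[T;T⁻¹] c + uu + vv a) f * (uu - vv a)) := rfl

theorem br_LA_one (w : R) (k : ℕ) : br (LA a c w) 1 (q a c k) = if k = 1 then w else 0 := by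
  rw [br_apply, LA_apply, derivative_one, zero_mul, sub_zero, one_mul,
    q_deriv a c (uu : R[T;T⁻¹]) (vv a) (uv_eq a) k]
  have h : ((k : ℕ) : R[T;T⁻¹]) * (uu ^ k - vv a ^ k) = (k : R) • (uu ^ k - vv a ^ k) := by
    rw [Algebra.smul_def, map_natCast]
  rw [h, map_smul, map_sub, cf_u, cf_v, if_neg (show ¬ -(k : ℤ) = 1 by omega)]
  by_cases h1 : k = 1
  · subst h1
    simp
  · rw [if_neg (by omega), if_neg h1]
    simp

theorem br_LA (w : R) (j k : ℕ) (hj0 : 0 < j) (hjk : j < k) : br (LA a c w) (q a c j) (q a c k) =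
    if k = j + 1 then w * ((k + j : R) * a ^ j) else 0 := by
  rw [br_apply, LA_apply]
  have h : aeval (algebraMap R R[T;T⁻¹] c + uu + vv a)
      (q a c j * derivative (q a c k) - derivative (q a c j) * q a c k) * (uu - vv a) =
      ((k : R) - j) • ((uu : R[T;T⁻¹]) ^ (j + k) - vv a ^ (j + k)) +
      (((k : R) + j) * a ^ j) • (uu ^ (k - j) - vv a ^ (k - j)) := by
    rw [map_sub, map_mul, map_mul, q_eval a c uu (vv a) (uv_eq a), q_eval a c uu (vv a) (uv_eq a)]
    have hj := q_deriv a c (uu : R[T;T⁻¹]) (vv a) (uv_eq a) j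
    have hk := q_deriv a c (uu : R[T;T⁻¹]) (vv a) (uv_eq a) k
    obtain ⟨d, rfl⟩ := Nat.exists_eq_add_of_lt hjk
    have e : j + d + 1 - j = d + 1 := by omega
    rw [e]
    rw [Algebra.smul_def, Algebra.smul_def, map_sub, map_mul, map_add, map_pow, ← uv_eq a,
      map_natCast, map_natCast]
    rw [sub_mul, mul_assoc, hk]
    linear_combination (-(uu ^ (j + d + 1) + vv a ^ (j + d + 1))) * hj
  rw [h, map_add, map_smul, map_smul, map_sub, map_sub, cf_u, cf_u, cf_v, cf_v]
  rw [if_neg (show ¬ ((j + k : ℕ) : ℤ) = 1 by omega),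
    if_neg (show ¬ -((j + k : ℕ) : ℤ) = 1 by omega),
    if_neg (show ¬ -((k - j : ℕ) : ℤ) = 1 by omega)]
  by_cases h1 : k = j + 1
  · rw [if_pos (show ((k - j : ℕ) : ℤ) = 1 by omega), if_pos h1]
    simp
  · rw [if_neg (show ¬ ((k - j : ℕ) : ℤ) = 1 by omega), if_neg h1]
    simp

/-- the arcsine functional -/
noncomputable def LB : R[X] →ₗ[R] R where
  toFun f := cf 0 (aeval (algebraMap R R[T;T⁻¹] c + uu + vv a) f)
  map_add' f g := by rw [map_add, map_add]
  map_smul' r f := by
    rw [map_smul, map_smul, RingHom.id_apply]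

theorem LB_apply (f : R[X]) :
    LB a c f = cf 0 (aeval (algebraMap R R[T;T⁻¹] c + uu + vv a) f) := rfl

/-- orthogonality -/
theorem LB_qq (j k : ℕ) (hjk : j ≤ k) (hk : 0 < k) : LB a c (q a c j * q a c k) =
    if j = k then 2 * a ^ j else 0 := by
  rw [LB_apply, map_mul, q_eval a c uu (vv a) (uv_eq a), q_eval a c uu (vv a) (uv_eq a)]
  have h : ((uu : R[T;T⁻¹]) ^ j + vv a ^ j) * (uu ^ k + vv a ^ k) =
      uu ^ (j + k) + vv a ^ (j + k) + (uu ^ k * vv a ^ j + uu ^ j * vv a ^ k) := by
    ring
  rw [h, map_add, map_add, map_add, cf_u, cf_v, cf_uv, cf_uv]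
  rw [if_neg (by omega), if_neg (by omega)]
  by_cases h1 : j = k
  · subst h1
    rw [if_pos (by omega), if_pos rfl]
    ring
  · rw [if_neg (by omega), if_neg (by omega), if_neg h1]
    ring

end laurent

end Pool.Agent.J4H74.Pfa
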