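import Pool.Agent.J4H74.Pfa.Cheb

/-!
# The two evaluations, and the moments
-/

set_option autoImplicit false

namespace Pool.Agent.J4H74.Pfa

open Matrix Finset Polynomial LaurentPolynomial

section A

variable {R : Type*} [CommRing R] [Nontrivial R] (a c w : R)

/-- monic version of `q` -/
noncomputable def pp (k : ℕ) : R[X] := if k = 0 then 1 else q a c k

theorem pp_monic (k : ℕ) : (pp a c k).Monic := by
  unfold pp
  split_ifs with h
  · exact monic_one
  · obtain ⟨k, rfl⟩ := Nat.exists_eq_succ_of_ne_zero h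
    exact (q_monic a c k).1

theorem pp_deg (k : ℕ) : (pp a c k).natDegree = k := by
  unfold pp
  split_ifs with h
  · rw [natDegree_one, h]
  · obtain ⟨k, rfl⟩ := Nat.exists_eq_succ_of_ne_zero h
    exact (q_monic a c k).2

theorem evalA (n : ℕ) :
    pfS n (Matrix.of fun i j : Fin (2 * n) =>
      ((j.val : R) - (i.val : R)) * LA a c w (X ^ (i.val + j.val - 1))) =
    2 ^ n * (n.factorial : R) * ∏ i ∈ range n, (w * ((4 * (i : R) + 1) * a ^ (2 * i))) := by
  rw [pfS_gram (LA a c w) (pp a c) (pp_monic a c) (pp_deg a c)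
    (fun j => w * ((2 * (j : R) + 1) * a ^ j))]
  · congr 1
    refine Finset.prod_congr rfl fun i _ => ?_
    push_cast
    ring
  · intro j k hjk
    unfold pp
    rw [if_neg (show ¬ k = 0 by omega)]
    split_ifs with h
    · rw [br_LA_one, if_neg (by omega)]
    · rw [br_LA a c w j k (by omega) (by omega), if_neg (by omega)]
  · intro j
    unfold pp
    rw [if_neg (show ¬ j + 1 = 0 by omega)]
    split_ifs with h
    · subst h
      rw [br_LA_one, if_pos rfl]
      simp
    · rw [br_LA a c w j (j + 1) (by omega) (by omega), if_pos rfl]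
      push_cast
      ring

end A

section B

variable {F : Type*} [Field F] [CharZero F] (a c : F)

/-- the integrated polynomials -/
noncomputable def rr (k : ℕ) : F[X] :=
  if k ≤ 2 then pp a c k else
    q a c k - Polynomial.C ((k : F) / ((k : F) - 2) * a) * q a c (k - 2)

theorem rr_monic_deg (k : ℕ) : (rr a c k).Monic ∧ (rr a c k).natDegree = k := by
  unfold rr
  split_ifs with h
  · exact ⟨pp_monic a c k, pp_deg a c k⟩
  · obtain ⟨j, rfl⟩ := Nat.exists_eq_add_of_le (show 3 ≤ k by omega)
    obtain ⟨m1, d1⟩ := q_monic a c (j + 2)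
    obtain ⟨m0, d0⟩ := q_monic a c j
    have e1 : 3 + j = j + 2 + 1 := by omega
    have e2 : 3 + j - 2 = j + 1 := by omega
    rw [e2, e1]
    have h5 : (Polynomial.C (((j + 2 + 1 : ℕ) : F) / (((j + 2 + 1 : ℕ) : F) - 2) * a) *
        q a c (j + 1)).natDegree ≤ j + 1 := by
      refine (natDegree_C_mul_le _ _).trans ?_
      rw [d0]
    have h4 : (Polynomial.C (((j + 2 + 1 : ℕ) : F) / (((j + 2 + 1 : ℕ) : F) - 2) * a) *
        q a c (j + 1)).degree < (q a c (j + 2 + 1)).degree := by
      rw [Polynomial.degree_eq_natDegree m1.ne_zero, d1]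
      refine lt_of_le_of_lt degree_le_natDegree ?_
      exact Nat.cast_lt.2 (lt_of_le_of_lt h5 (by omega))
    refine ⟨m1.sub_of_left h4, ?_⟩
    rw [natDegree_sub_eq_left_of_natDegree_lt, d1]
    rw [d1]
    omega

/-- cancel `u - v` -/
theorem uv_cancel {f g : F[T;T⁻¹]} (h : f * (uu - vv a) = g * (uu - vv a)) : f = g := by
  have hne : (uu : F[T;T⁻¹]) - vv a ≠ 0 := by
    intro h0
    have := congrArg (cf 1) h0
    have h1 := cf_u (R := F) 1 1
    have h2 := cf_v a 1 1
    rw [pow_one] at h1 h2
    rw [map_sub, h1, h2, map_zero] at this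
    norm_num at this
  exact mul_right_cancel₀ hne h

/-- the derivative of `rr k` -/
theorem rr_deriv (k : ℕ) (hk : 2 ≤ k) :
    aeval (algebraMap F F[T;T⁻¹] c + uu + vv a) (derivative (rr a c k)) =
      (k : F) • (uu ^ (k - 1) + vv a ^ (k - 1)) := by
  apply uv_cancel a
  have huv := uv_eq a
  unfold rr
  split_ifs with h
  · have : k = 2 := by omega
    subst this
    unfold pp
    rw [if_neg (by norm_num), q_deriv a c uu (vv a) huv, Algebra.smul_def, map_natCast]
    push_cast
    ring
  · obtain ⟨j, rfl⟩ := Nat.exists_eq_add_of_le (show 3 ≤ k by omega)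
    have e2 : 3 + j - 2 = j + 1 := by omega
    have e3 : 3 + j - 1 = j + 2 := by omega
    rw [e2, e3, derivative_sub, derivative_mul, derivative_C, zero_mul, zero_add, map_sub, map_mul,
      aeval_C, sub_mul, mul_assoc, q_deriv a c uu (vv a) huv, q_deriv a c uu (vv a) huv]
    have e4 : algebraMap F F[T;T⁻¹] (((3 + j : ℕ) : F) / (((3 + j : ℕ) : F) - 2) * a) *
        ((j + 1 : ℕ) : F[T;T⁻¹]) = algebraMap F F[T;T⁻¹] ((3 + j : ℕ) : F) * (uu * vv a) := by
      rw [huv, ← map_natCast (algebraMap F F[T;T⁻¹]), ← map_mul, ← map_mul]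
      congr 1
      have hne : ((3 + j : ℕ) : F) - 2 ≠ 0 := by
        have : ((3 + j : ℕ) : F) - 2 = ((j + 1 : ℕ) : F) := by push_cast; ring
        rw [this]
        exact_mod_cast Nat.succ_ne_zero j
      have h2 : ((j + 1 : ℕ) : F) = ((3 + j : ℕ) : F) - 2 := by push_cast; ring
      rw [h2]
      field_simp
    rw [← mul_assoc (algebraMap F F[T;T⁻¹] _), e4, Algebra.smul_def, map_natCast]
    ring

theorem LB_one_q (k : ℕ) (hk : 0 < k) : LB a c (q a c k) = 0 := by
  have h := LB_qq a c 0 k (Nat.zero_le _) hk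
  rw [q_zero, if_neg (by omega)] at h
  have h2 : LB a c (2 * q a c k) = 2 * LB a c (q a c k) := by
    have : (2 : F[X]) * q a c k = (2 : F) • q a c k := by
      rw [Polynomial.smul_eq_C_mul]
      rfl
    rw [this, map_smul, smul_eq_mul]
  rw [h2] at h
  exact (mul_eq_zero.1 h).resolve_left two_ne_zero

omit [CharZero F] in
theorem LB_sub (f g : F[X]) (r : F) : LB a c (f - Polynomial.C r * g) = LB a c f - r * LB a c g := by
  rw [← Polynomial.smul_eq_C_mul, map_sub, map_smul, smul_eq_mul]

/-- `L (rr j * q k)` for `j ≤ k`, `k ≥ 1`. -/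
theorem LB_rq (j k : ℕ) (hj : 0 < j) (hjk : j ≤ k) : LB a c (rr a c j * q a c k) =
    if j = k then 2 * a ^ j else 0 := by
  unfold rr
  split_ifs with h h1 h1
  · unfold pp
    rw [if_neg (by omega), LB_qq a c j k hjk (by omega), if_pos h1]
  · unfold pp
    rw [if_neg (by omega), LB_qq a c j k hjk (by omega), if_neg h1]
  · rw [sub_mul, mul_assoc, LB_sub, LB_qq a c j k hjk (by omega), if_pos h1,
      LB_qq a c (j - 2) k (by omega) (by omega), if_neg (by omega)]
    ring
  · rw [sub_mul, mul_assoc, LB_sub, LB_qq a c j k hjk (by omega), if_neg h1,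
      LB_qq a c (j - 2) k (by omega) (by omega), if_neg (by omega)]
    ring

/-- `L (q j * rr k)` for `1 ≤ j < k`. -/
theorem LB_qr (j k : ℕ) (hj : 0 < j) (hjk : j < k) : LB a c (q a c j * rr a c k) =
    if k = j + 2 then - ((k : F) / ((k : F) - 2) * a) * (2 * a ^ j) else 0 := by
  unfold rr
  split_ifs with h h1 h1
  · omega
  · unfold pp
    rw [if_neg (by omega), LB_qq a c j k (by omega) (by omega), if_neg (by omega)]
  · subst h1
    have e : q a c j * (q a c (j + 2) - Polynomial.C (((j + 2 : ℕ) : F) / (((j + 2 : ℕ) : F) - 2) * a) *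
        q a c (j + 2 - 2)) = q a c j * q a c (j + 2) -
        Polynomial.C (((j + 2 : ℕ) : F) / (((j + 2 : ℕ) : F) - 2) * a) * (q a c j * q a c j) := by
      rw [show j + 2 - 2 = j by omega]
      ring
    rw [e, LB_sub, LB_qq a c j (j + 2) (by omega) (by omega), if_neg (by omega),
      LB_qq a c j j le_rfl hj, if_pos rfl]
    ring
  · have e : q a c j * (q a c k - Polynomial.C ((k : F) / ((k : F) - 2) * a) *
        q a c (k - 2)) = q a c j * q a c k -
        Polynomial.C ((k : F) / ((k : F) - 2) * a) * (q a c j * q a c (k - 2)) := by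
      ring
    rw [e, LB_sub, LB_qq a c j k (by omega) (by omega), if_neg (by omega)]
    rcases Nat.lt_or_ge (k - 2) j with h2 | h2
    · rw [mul_comm (q a c j)]
      rcases Nat.eq_zero_or_pos (k - 2) with h3 | h3
      · omega
      · rw [LB_qq a c (k - 2) j (by omega) (by omega), if_neg (by omega)]
        ring
    · rw [LB_qq a c j (k - 2) (by omega) (by omega), if_neg (by omega)]
      ring

/-- `rr' = k q_{k-1}` after evaluation. -/
theorem LB_mul_deriv (f : F[X]) (k : ℕ) (hk : 2 ≤ k) :
    LB a c (f * derivative (rr a c k)) = (k : F) * LB a c (f * q a c (k - 1)) := by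
  rw [LB_apply, LB_apply, map_mul (aeval (algebraMap F F[T;T⁻¹] c + uu + vv a)) f (derivative _),
    map_mul (aeval (algebraMap F F[T;T⁻¹] c + uu + vv a)) f (q a c (k - 1)), rr_deriv a c k hk,
    q_eval a c uu (vv a) (uv_eq a), mul_smul_comm, map_smul, smul_eq_mul]

theorem br_rr_zero (k : ℕ) (hk : 0 < k) : br (LB a c) (rr a c 0) (rr a c k) =
    if k = 1 then 1 else 0 := by
  have h0 : rr a c 0 = 1 := by
    unfold rr pp
    simp
  rw [h0, br_apply, derivative_one, zero_mul, sub_zero]
  split_ifs with h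
  · subst h
    have h1 : rr a c 1 = X - Polynomial.C c := by
      unfold rr pp
      simp [q_one]
    rw [h1, derivative_sub, derivative_X, derivative_C, sub_zero, one_mul, LB_apply, map_one]
    have := cf_u (R := F) 0 0
    rw [pow_zero] at this
    rw [this]
    simp
  · rw [LB_mul_deriv a c 1 k (by omega), one_mul, LB_one_q a c (k - 1) (by omega), mul_zero]

theorem br_rr_one (k : ℕ) (hk : 1 < k) : br (LB a c) (rr a c 1) (rr a c k) =
    if k = 2 then 4 * a else 0 := by
  have h1 : rr a c 1 = q a c 1 := by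
    unfold rr pp
    simp
  have hd : derivative (rr a c 1) = 1 := by
    rw [h1, q_one, derivative_sub, derivative_X, derivative_C, sub_zero]
  rw [br_apply, hd, one_mul, map_sub, LB_mul_deriv a c _ k hk]
  have h3 : LB a c (rr a c k) = 0 := by
    unfold rr pp
    split_ifs with h4 h5
    · omega
    · exact LB_one_q a c k (by omega)
    · rw [LB_sub, LB_one_q a c k (by omega), LB_one_q a c (k - 2) (by omega)]
      ring
  rw [h3, sub_zero, h1]
  have h6 := LB_qq a c 1 (k - 1) (by omega) (by omega)
  rw [h6]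
  split_ifs with h7 h8 h8
  · subst h8
    push_cast
    ring
  · omega
  · omega
  · ring

theorem br_rr (j k : ℕ) (hj : 2 ≤ j) (hjk : j < k) : br (LB a c) (rr a c j) (rr a c k) =
    if k = j + 1 then 2 * a ^ j * ((j : F) + 1) * (2 * j - 1) / ((j : F) - 1) else 0 := by
  have hd : LB a c (derivative (rr a c j) * rr a c k) = (j : F) * LB a c (q a c (j - 1) * rr a c k) := by
    rw [mul_comm, LB_mul_deriv a c _ j hj, mul_comm (rr a c k)]
  rw [br_apply, map_sub, hd, LB_mul_deriv a c _ k (by omega), LB_rq a c j (k - 1) (by omega) (by omega),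
    LB_qr a c (j - 1) k (by omega) (by omega)]
  by_cases h : k = j + 1
  · subst h
    rw [if_pos (by omega), if_pos (by omega), if_pos rfl]
    have hne : (j : F) - 1 ≠ 0 := by
      rw [sub_ne_zero]
      exact_mod_cast (show j ≠ 1 by omega)
    have e : a * a ^ (j - 1) = a ^ j := by
      rw [← pow_succ']
      congr 1
      omega
    push_cast
    have h2 : (j : F) + 1 - 2 = (j : F) - 1 := by ring
    rw [h2]
    field_simp
    linear_combination (j : F) * e
  · rw [if_neg (by omega), if_neg (by omega), if_neg h]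
    ring

theorem evalB (n : ℕ) (hn : 1 ≤ n) :
    pfS n (Matrix.of fun i j : Fin (2 * n) =>
      ((j.val : F) - (i.val : F)) * LB a c (X ^ (i.val + j.val - 1))) =
    2 ^ n * (n.factorial : F) * (2 ^ (n - 1) * a ^ (n * (n - 1)) * (2 * (n : F) - 1) *
      ∏ i ∈ range (n - 1), (4 * ((i : F) + 1) - 1)) := by
  rw [pfS_gram (LB a c) (rr a c) (fun k => (rr_monic_deg a c k).1) (fun k => (rr_monic_deg a c k).2)
    (fun j => if j = 0 then 1 else if j = 1 then 4 * a else
      2 * a ^ j * ((j : F) + 1) * (2 * j - 1) / ((j : F) - 1))]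
  · congr 1
    obtain ⟨m, rfl⟩ := Nat.exists_eq_add_of_le hn
    rw [show 1 + m - 1 = m by omega]
    clear hn
    induction m with
    | zero =>
      simp
      norm_num
    | succ m ih =>
      rw [show 1 + (m + 1) = (1 + m) + 1 by omega, Finset.prod_range_succ, ih,
        Finset.prod_range_succ]
      rw [if_neg (by omega), if_neg (by omega)]
      have hne : (2 * (m : F) + 1) ≠ 0 := by
        have : (2 * (m : F) + 1) = ((2 * m + 1 : ℕ) : F) := by push_cast; ring
        rw [this]
        exact_mod_cast (show 2 * m + 1 ≠ 0 by omega)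
      have hne2 : (((2 * (1 + m) : ℕ) : F) - 1) = 2 * (m : F) + 1 := by push_cast; ring
      rw [hne2]
      push_cast
      have e1 : (2 * ((1 : F) + m) - 1) = 2 * m + 1 := by ring
      rw [e1]
      have e2 : ((1 + m + 1) * (m + 1) : ℕ) = (1 + m) * m + 2 * (1 + m) := by ring
      rw [e2, pow_add]
      field_simp
      ring
  · intro j k hjk
    rcases Nat.lt_or_ge j 2 with h | h
    · interval_cases j
      · rw [br_rr_zero a c k (by omega), if_neg (by omega)]
      · rw [br_rr_one a c k (by omega), if_neg (by omega)]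
    · rw [br_rr a c j k h (by omega), if_neg (by omega)]
  · intro j
    rcases Nat.lt_or_ge j 2 with h | h
    · interval_cases j
      · rw [br_rr_zero a c (0 + 1) (by omega)]
        simp
      · rw [br_rr_one a c (1 + 1) (by omega)]
        simp
    · rw [br_rr a c j (j + 1) h (by omega), if_pos rfl, if_neg (by omega), if_neg (by omega)]

end B

end Pool.Agent.J4H74.Pfa
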