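import Pool.Agent.J4H74.Pfa.Basic

/-!
# Pfaffians of Gram matrices `L (X^i (X^j)' - (X^i)' X^j)`
-/

set_option autoImplicit false

namespace Pool.Agent.J4H74.Pfa

open Matrix Finset Polynomial

variable {R : Type*} [CommRing R]

/-- The index `2 i + b` of `Fin (2 n)`. -/
def ix {n : ℕ} (i : Fin n) (b : Fin 2) : Fin (2 * n) := ⟨2 * i + b, by omega⟩

/-- The permutation sum `∑_σ sgn σ ∏_i A_{σ(2i-1) σ(2i)}` (indices counted from zero). -/
def pfS (n : ℕ) (A : Matrix (Fin (2 * n)) (Fin (2 * n)) R) : R :=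
  ∑ σ : Equiv.Perm (Fin (2 * n)), ((Equiv.Perm.sign σ : ℤ) : R) *
    ∏ i : Fin n, A (σ (ix i 0)) (σ (ix i 1))

/-- Pairs and indices. -/
def eqv (n : ℕ) : Fin n × Fin 2 ≃ Fin (2 * n) where
  toFun p := ix p.1 p.2
  invFun k := (⟨k / 2, by omega⟩, ⟨k % 2, by omega⟩)
  left_inv p := by
    obtain ⟨i, b⟩ := p
    ext <;> simp [ix] <;> omega
  right_inv k := by
    ext
    simp [ix]
    omega

theorem pfS_eq (n : ℕ) (A : Matrix (Fin (2 * n)) (Fin (2 * n)) R) :
    pfS n A = pfJ n (A.submatrix (eqv n) (eqv n)) := by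
  unfold pfS pfJ
  rw [← Equiv.sum_comp (eqv n).permCongr]
  refine Finset.sum_congr rfl fun σ _ => ?_
  rw [Equiv.Perm.sign_permCongr]
  congr 1
  refine Finset.prod_congr rfl fun i _ => ?_
  have h : ∀ b, (eqv n).permCongr σ (ix i b) = eqv n (σ (i, b)) := by
    intro b
    rw [Equiv.permCongr_apply]
    congr 2
    exact (eqv n).symm_apply_apply (i, b)
  rw [h, h]
  rfl

theorem pfS_conj (n : ℕ) (A B : Matrix (Fin (2 * n)) (Fin (2 * n)) R) :
    pfS n (B * A * Bᵀ) = B.det * pfS n A := by
  rw [pfS_eq, pfS_eq, ← Matrix.det_submatrix_equiv_self (eqv n) B, ← pfJ_conj]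
  congr 1
  rw [Matrix.transpose_submatrix, Matrix.submatrix_mul_equiv, Matrix.submatrix_mul_equiv]

theorem pfS_tri (n : ℕ) (A : Matrix (Fin (2 * n)) (Fin (2 * n)) R)
    (hA : ∀ x y, A x y = - A y x) (hd : ∀ x, A x x = 0)
    (h0 : ∀ x y : Fin (2 * n), x.val + 1 < y.val → A x y = 0) :
    pfS n A = 2 ^ n * (n.factorial : R) * ∏ i : Fin n, A (ix i 0) (ix i 1) := by
  classical
  rw [pfS_eq, mul_assoc]
  have hpos : ∀ x : Fin n × Fin 2, (eqv n x).val = pos x := by
    rintro ⟨i, b⟩
    rfl
  let W : Matrix (Fin n × Fin 2) (Fin n × Fin 2) R := Matrix.of fun x y =>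
    if pos y = pos x + 1 then A (eqv n x) (eqv n y) else 0
  rw [pfJ_split n _ W, pfJ_upper n W]
  · congr 2
    refine Finset.prod_congr rfl fun i _ => ?_
    simp only [W, Matrix.of_apply]
    rw [if_pos (by simp [pos])]
    rfl
  · intro x y h
    simp only [W, Matrix.of_apply]
    rw [if_neg h]
  · intro x y
    simp only [W, Matrix.of_apply, Matrix.submatrix_apply]
    rcases lt_trichotomy (pos x) (pos y) with h | h | h
    · rw [if_neg (show ¬ pos x = pos y + 1 by omega), sub_zero]
      split_ifs with h1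
      · rfl
      · apply h0
        rw [hpos, hpos]
        omega
    · rw [if_neg (by omega), if_neg (by omega), sub_zero]
      have : eqv n x = eqv n y := by
        ext
        rw [hpos, hpos, h]
      rw [this, hd]
    · rw [if_neg (show ¬ pos y = pos x + 1 by omega), zero_sub]
      split_ifs with h1
      · exact hA _ _
      · rw [hA, h0]
        rw [hpos, hpos]
        omega

/-- The bracket `L (f g' - f' g)`. -/
noncomputable def br (L : R[X] →ₗ[R] R) : R[X] →ₗ[R] R[X] →ₗ[R] R :=
  LinearMap.mk₂ R (fun f g => L (f * derivative g - derivative f * g))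
    (by intro f f' g; rw [← map_add]; congr 1; simp only [map_add]; ring)
    (by intro c f g; rw [← map_smul]; congr 1; simp only [derivative_smul, smul_mul_assoc,
          smul_sub])
    (by intro f g g'; rw [← map_add]; congr 1; simp only [map_add]; ring)
    (by intro c f g; rw [← map_smul]; congr 1; simp only [derivative_smul, mul_smul_comm,
          smul_sub])

theorem br_apply (L : R[X] →ₗ[R] R) (f g : R[X]) :
    br L f g = L (f * derivative g - derivative f * g) := rfl

theorem br_XX (L : R[X] →ₗ[R] R) (i j : ℕ) :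
    br L (X ^ i) (X ^ j) = ((j : R) - (i : R)) * L (X ^ (i + j - 1)) := by
  rw [br_apply]
  have h : (X : R[X]) ^ i * derivative (X ^ j) - derivative (X ^ i) * X ^ j =
      ((j : R) - (i : R)) • X ^ (i + j - 1) := by
    rw [derivative_X_pow, derivative_X_pow]
    rcases Nat.eq_zero_or_pos i with hi | hi
    · subst hi
      simp [Polynomial.smul_eq_C_mul]
    · rcases Nat.eq_zero_or_pos j with hj | hj
      · subst hj
        simp [Polynomial.smul_eq_C_mul]
      · obtain ⟨i, rfl⟩ := Nat.exists_eq_add_of_lt hi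
        obtain ⟨j, rfl⟩ := Nat.exists_eq_add_of_lt hj
        simp only [zero_add, Nat.add_sub_cancel, Polynomial.smul_eq_C_mul]
        have e : i + 1 + (j + 1) - 1 = i + j + 1 := by omega
        rw [e]
        simp only [map_sub, map_natCast]
        ring
  rw [h, map_smul, smul_eq_mul]

/-- The main reduction: monic polynomials whose bracket table is tridiagonal. -/
theorem pfS_gram (L : R[X] →ₗ[R] R) (p : ℕ → R[X]) (hm : ∀ k, (p k).Monic)
    (hdeg : ∀ k, (p k).natDegree = k) (b : ℕ → R)
    (h0 : ∀ j k, j + 1 < k → br L (p j) (p k) = 0)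
    (h1 : ∀ j, br L (p j) (p (j + 1)) = b j) (n : ℕ) :
    pfS n (Matrix.of fun i j : Fin (2 * n) =>
      ((j.val : R) - (i.val : R)) * L (X ^ (i.val + j.val - 1))) =
    2 ^ n * (n.factorial : R) * ∏ i ∈ range n, b (2 * i) := by
  set A : Matrix (Fin (2 * n)) (Fin (2 * n)) R := Matrix.of fun i j =>
      ((j.val : R) - (i.val : R)) * L (X ^ (i.val + j.val - 1)) with hAdef
  let T : Matrix (Fin (2 * n)) (Fin (2 * n)) R := Matrix.of fun i j => (p j).coeff i
  have hT : T.det = 1 := det_matrixOfPolynomials (fun j : Fin (2 * n) => p j)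
    (fun i => hdeg i) (fun i => hm i)
  have hexp : ∀ j : Fin (2 * n), p j = ∑ i : Fin (2 * n), T i j • (X : R[X]) ^ (i : ℕ) := by
    intro j
    conv_lhs => rw [Polynomial.as_sum_range' (p j) (2 * n) (by rw [hdeg]; exact j.2)]
    rw [← Fin.sum_univ_eq_sum_range (fun i => monomial i ((p j).coeff i)) (2 * n)]
    refine Finset.sum_congr rfl fun i _ => ?_
    rw [← Polynomial.smul_X_eq_monomial]
    rfl
  have hB : Tᵀ * A * Tᵀᵀ = Matrix.of fun i j : Fin (2 * n) => br L (p i) (p j) := by
    ext i j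
    rw [Matrix.transpose_transpose, Matrix.mul_apply, Matrix.of_apply, hexp i, hexp j]
    simp only [map_sum, map_smul, LinearMap.sum_apply, LinearMap.smul_apply, br_XX, smul_eq_mul]
    refine Finset.sum_congr rfl fun k _ => ?_
    rw [Matrix.mul_apply, Finset.sum_mul, Finset.mul_sum]
    refine Finset.sum_congr rfl fun l _ => ?_
    simp only [Matrix.transpose_apply, hAdef, Matrix.of_apply]
    ring
  have hc := pfS_conj n A Tᵀ
  rw [Matrix.det_transpose, hT, one_mul, hB] at hc
  rw [← hc]
  have hanti : ∀ f g : R[X], br L f g = - br L g f := by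
    intro f g
    rw [br_apply, br_apply, ← map_neg]
    congr 1
    ring
  rw [pfS_tri]
  · congr 1
    rw [← Fin.prod_univ_eq_prod_range (fun i => b (2 * i)) n]
    refine Finset.prod_congr rfl fun i _ => ?_
    rw [Matrix.of_apply]
    have := h1 (2 * i)
    simpa [ix] using this
  · intro x y
    exact hanti _ _
  · intro x
    rw [Matrix.of_apply, br_apply]
    rw [show p x * derivative (p x) - derivative (p x) * p x = 0 by ring, map_zero]
  · intro x y h
    exact h0 _ _ h

end Pool.Agent.J4H74.Pfa
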