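import Pool.Agent.J4H74.Pfa.Eval

/-!
# Moments
-/

set_option autoImplicit false

namespace Pool.Agent.J4H74.Pfa

open Matrix Finset Polynomial LaurentPolynomial

section gen

variable {R : Type*} [CommRing R] (a w : R)

theorem x_pow (m : ℕ) : (algebraMap R R[T;T⁻¹] (1 + a) + uu + vv a) ^ m =
    ∑ i ∈ range (m + 1), ∑ j ∈ range (m + 1),
      ((m.choose i : R) * (m.choose j : R)) • ((uu : R[T;T⁻¹]) ^ i * vv a ^ j) := by
  have h : algebraMap R R[T;T⁻¹] (1 + a) + uu + vv a = (uu + 1) * (vv a + 1) := by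
    rw [map_add, map_one, ← uv_eq a]
    ring
  rw [h, mul_pow, add_pow, add_pow, Finset.sum_mul_sum]
  refine Finset.sum_congr rfl fun i _ => Finset.sum_congr rfl fun j _ => ?_
  rw [one_pow, one_pow, Algebra.smul_def, map_mul, map_natCast, map_natCast]
  ring

theorem mom0 (m : ℕ) : LB a (1 + a) (X ^ m) =
    ∑ j ∈ range (m + 1), (m.choose j : R) ^ 2 * a ^ j := by
  rw [LB_apply, map_pow, aeval_X, x_pow, map_sum]
  refine Finset.sum_congr rfl fun i hi => ?_
  rw [map_sum, Finset.sum_eq_single i]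
  · rw [map_smul, cf_uv, if_pos (sub_self _), smul_eq_mul]
    ring
  · intro j _ hj
    rw [map_smul, cf_uv, if_neg (by omega), smul_zero]
  · intro h
    exact absurd hi h

theorem mom1 (m : ℕ) : LA a (1 + a) w (X ^ m) =
    w * (∑ j ∈ range (m + 1), (m.choose j : R) ^ 2 * a ^ j -
      ∑ j ∈ range (m + 1), (m.choose (j + 2) : R) * (m.choose j : R) * a ^ (j + 1)) := by
  rw [LA_apply, map_pow, aeval_X, x_pow]
  congr 1
  rw [Finset.sum_mul, map_sum, ← Finset.sum_sub_distrib]
  have h1 : ∀ i j : ℕ, cf 1 (((m.choose i : R) * (m.choose j : R)) •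
      ((uu : R[T;T⁻¹]) ^ i * vv a ^ j) * (uu - vv a)) =
      (m.choose i : R) * (m.choose j : R) * (if i = j then a ^ j else 0) -
      (m.choose i : R) * (m.choose j : R) * (if i = j + 2 then a ^ (j + 1) else 0) := by
    intro i j
    have : (uu : R[T;T⁻¹]) ^ i * vv a ^ j * (uu - vv a) =
        uu ^ (i + 1) * vv a ^ j - uu ^ i * vv a ^ (j + 1) := by ring
    rw [smul_mul_assoc, this, map_smul, map_sub, cf_uv, cf_uv, smul_eq_mul, mul_sub]
    congr 2
    · split_ifs with h1 h2 h2
      · rfl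
      · omega
      · omega
      · rfl
    · split_ifs with h1 h2 h2
      · rfl
      · omega
      · omega
      · rfl
  have h2 : ∀ i : ℕ, cf 1 ((∑ j ∈ range (m + 1), ((m.choose i : R) * (m.choose j : R)) •
      ((uu : R[T;T⁻¹]) ^ i * vv a ^ j)) * (uu - vv a)) =
      (∑ j ∈ range (m + 1), (m.choose i : R) * (m.choose j : R) * (if i = j then a ^ j else 0)) -
      ∑ j ∈ range (m + 1), (m.choose i : R) * (m.choose j : R) * (if i = j + 2 then a ^ (j + 1) else 0) := by
    intro i
    rw [Finset.sum_mul, map_sum, ← Finset.sum_sub_distrib]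
    exact Finset.sum_congr rfl fun j _ => h1 i j
  rw [Finset.sum_congr rfl (fun i _ => h2 i), Finset.sum_sub_distrib, Finset.sum_sub_distrib]
  congr 1
  · refine Finset.sum_congr rfl fun i hi => ?_
    rw [Finset.sum_eq_single i]
    · rw [if_pos rfl]
      ring
    · intro j _ hj
      rw [if_neg (Ne.symm hj), mul_zero]
    · intro h
      exact absurd hi h
  · rw [Finset.sum_comm]
    refine Finset.sum_congr rfl fun j hj => ?_
    by_cases hj2 : j + 2 < m + 1
    · rw [Finset.sum_eq_single (j + 2)]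
      · rw [if_pos rfl]
      · intro i _ hi
        rw [if_neg hi, mul_zero]
      · intro h
        exact absurd (Finset.mem_range.2 hj2) h
    · rw [Nat.choose_eq_zero_of_lt (show m < j + 2 by omega), Nat.cast_zero, zero_mul, zero_mul]
      refine Finset.sum_eq_zero fun i hi => ?_
      rw [if_neg (by have := Finset.mem_range.1 hi; omega), mul_zero]

end gen

/-- Catalan numbers as rationals. -/
def cat (k : ℕ) : ℚ := (1 / ((k : ℚ) + 1)) * ((2 * k).choose k : ℚ)

theorem cat_eq (k : ℕ) : cat k = ((2 * k).choose k : ℚ) - ((2 * k).choose (k + 1) : ℚ) := by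
  have h := Nat.choose_succ_right_eq (2 * k) k
  have h2 : 2 * k - k = k := by omega
  rw [h2] at h
  have h3 : ((2 * k).choose (k + 1) : ℚ) * ((k : ℚ) + 1) = ((2 * k).choose k : ℚ) * k := by
    exact_mod_cast h
  have hk : (k : ℚ) + 1 ≠ 0 := by positivity
  unfold cat
  field_simp
  linear_combination h3

/-- moments of the semicircle law -/
theorem cf_y (l : ℕ) : cf 1 (((uu : ℚ[T;T⁻¹]) + vv 1) ^ l * (uu - vv 1)) =
    if l % 2 = 0 then cat (l / 2) else 0 := by
  rw [add_pow, Finset.sum_mul, map_sum]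
  have h1 : ∀ i ∈ range (l + 1), cf 1 ((uu : ℚ[T;T⁻¹]) ^ i * vv 1 ^ (l - i) * (l.choose i : ℚ[T;T⁻¹]) *
      (uu - vv 1)) = (if 2 * i = l then (l.choose i : ℚ) else 0) -
      (if 2 * i = l + 2 then (l.choose i : ℚ) else 0) := by
    intro i hi
    have hi' := Finset.mem_range.1 hi
    have : (uu : ℚ[T;T⁻¹]) ^ i * vv 1 ^ (l - i) * (l.choose i : ℚ[T;T⁻¹]) * (uu - vv 1) =
        (l.choose i : ℚ) • (uu ^ (i + 1) * vv 1 ^ (l - i)) -
        (l.choose i : ℚ) • (uu ^ i * vv 1 ^ (l - i + 1)) := by
      rw [Algebra.smul_def, Algebra.smul_def, map_natCast]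
      ring
    rw [this, map_sub, map_smul, map_smul, cf_uv, cf_uv, one_pow, one_pow, smul_eq_mul, smul_eq_mul]
    congr 1
    · split_ifs with h1 h2 h2
      · ring
      · omega
      · omega
      · ring
    · split_ifs with h1 h2 h2
      · ring
      · omega
      · omega
      · ring
  rw [Finset.sum_congr rfl h1, Finset.sum_sub_distrib]
  split_ifs with hl
  · obtain ⟨k, rfl⟩ : ∃ k, l = 2 * k := ⟨l / 2, by omega⟩
    rw [Nat.mul_div_cancel_left k (by norm_num), cat_eq]
    congr 1
    · rw [Finset.sum_eq_single k]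
      · rw [if_pos rfl]
      · intro i _ hi
        rw [if_neg (by omega)]
      · intro h
        exact absurd (Finset.mem_range.2 (by omega)) h
    · rcases Nat.eq_zero_or_pos k with hk | hk
      · subst hk
        simp
      · rw [Finset.sum_eq_single (k + 1)]
        · rw [if_pos (by ring)]
        · intro i _ hi
          rw [if_neg (by omega)]
        · intro h
          exact absurd (Finset.mem_range.2 (by omega)) h
  · rw [Finset.sum_eq_zero, Finset.sum_eq_zero, sub_zero]
    · intro i _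
      rw [if_neg (by omega)]
    · intro i _
      rw [if_neg (by omega)]

/-- Motzkin numbers. -/
def motz (n : ℕ) : ℚ := ∑ k ∈ range (n + 1), (n.choose (2 * k) : ℚ) * cat k

theorem sum_two (f : ℕ → ℚ) (N : ℕ) :
    ∑ l ∈ range (2 * N), f l = ∑ k ∈ range N, (f (2 * k) + f (2 * k + 1)) := by
  induction N with
  | zero => simp
  | succ N ih =>
    rw [show 2 * (N + 1) = 2 * N + 1 + 1 by ring, Finset.sum_range_succ, Finset.sum_range_succ, ih,
      Finset.sum_range_succ]
    ring

theorem mom_motz (m : ℕ) : LA (1 : ℚ) 1 1 (X ^ m) = motz m := by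
  rw [LA_apply, map_pow, aeval_X, one_mul, map_one]
  have h : (1 + (uu : ℚ[T;T⁻¹]) + vv 1) ^ m = ∑ l ∈ range (m + 1), (uu + vv 1) ^ l *
      (m.choose l : ℚ[T;T⁻¹]) := by
    rw [show (1 + (uu : ℚ[T;T⁻¹]) + vv 1) = (uu + vv 1) + 1 by ring, add_pow]
    refine Finset.sum_congr rfl fun l _ => ?_
    rw [one_pow, mul_one]
  rw [h, Finset.sum_mul, map_sum]
  have h2 : ∀ l ∈ range (m + 1), cf 1 (((uu : ℚ[T;T⁻¹]) + vv 1) ^ l * (m.choose l : ℚ[T;T⁻¹]) *
      (uu - vv 1)) = (m.choose l : ℚ) * (if l % 2 = 0 then cat (l / 2) else 0) := by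
    intro l _
    have e : ((uu : ℚ[T;T⁻¹]) + vv 1) ^ l * (m.choose l : ℚ[T;T⁻¹]) * (uu - vv 1) =
        (m.choose l : ℚ) • (((uu : ℚ[T;T⁻¹]) + vv 1) ^ l * (uu - vv 1)) := by
      rw [Algebra.smul_def, map_natCast]
      ring
    rw [e, map_smul, cf_y, smul_eq_mul]
  rw [Finset.sum_congr rfl h2]
  have h3 : ∑ l ∈ range (m + 1), (m.choose l : ℚ) * (if l % 2 = 0 then cat (l / 2) else 0) =
      ∑ l ∈ range (2 * (m + 1)), (m.choose l : ℚ) * (if l % 2 = 0 then cat (l / 2) else 0) := by
    apply Finset.sum_subset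
    · intro l hl
      rw [Finset.mem_range] at hl ⊢
      omega
    · intro l _ hl
      rw [Finset.mem_range, not_lt] at hl
      rw [Nat.choose_eq_zero_of_lt (by omega), Nat.cast_zero, zero_mul]
  rw [h3, sum_two]
  unfold motz
  refine Finset.sum_congr rfl fun k _ => ?_
  rw [if_pos (by omega), if_neg (by omega), Nat.mul_div_cancel_left k (by norm_num)]
  ring

/-- Central Delannoy numbers. -/
def dela (n : ℕ) : ℚ := ∑ k ∈ range (n + 1), (n.choose k : ℚ) * ((n + k).choose k : ℚ)

/-- Vandermonde in the form used below: `∑_j C(k,j) C(n, j+s) = C(n+k, k+s)`. -/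
theorem vdm (k n s : ℕ) : ∑ j ∈ range (k + 1), k.choose j * n.choose (j + s) =
    (n + k).choose (k + s) := by
  have h := Nat.add_choose_eq k n (k + s)
  rw [add_comm k n] at h
  rw [h, Finset.Nat.sum_antidiagonal_eq_sum_range_succ_mk]
  simp only
  have h2 : ∑ i ∈ range (k + s).succ, k.choose i * n.choose (k + s - i) =
      ∑ i ∈ range (k + 1), k.choose i * n.choose (k + s - i) := by
    symm
    apply Finset.sum_subset
    · intro l hl
      rw [Finset.mem_range] at hl ⊢
      omega
    · intro l _ hl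
      rw [Finset.mem_range, not_lt] at hl
      rw [Nat.choose_eq_zero_of_lt (by omega), zero_mul]
  rw [h2, ← Finset.sum_range_reflect]
  refine Finset.sum_congr rfl fun j hj => ?_
  have hj' := Finset.mem_range.1 hj
  rw [show k + 1 - 1 - j = k - j by omega, Nat.choose_symm (by omega : j ≤ k)]
  congr 2
  omega

theorem dela_eq (m : ℕ) : dela m = ∑ j ∈ range (m + 1), (m.choose j : ℚ) ^ 2 * 2 ^ j := by
  have h2 : ∀ j : ℕ, (2 : ℚ) ^ j = ∑ i ∈ range (j + 1), (j.choose i : ℚ) := by
    intro j
    exact_mod_cast (Nat.sum_range_choose j).symm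
  -- extend to the full range
  have h3 : ∀ j ∈ range (m + 1), (m.choose j : ℚ) ^ 2 * 2 ^ j =
      ∑ i ∈ range (m + 1), (m.choose j : ℚ) ^ 2 * (j.choose i : ℚ) := by
    intro j hj
    have hj' := Finset.mem_range.1 hj
    rw [h2, Finset.mul_sum]
    apply Finset.sum_subset
    · intro l hl
      rw [Finset.mem_range] at hl ⊢
      omega
    · intro l _ hl
      rw [Finset.mem_range, not_lt] at hl
      rw [Nat.choose_eq_zero_of_lt (show j < l by omega), Nat.cast_zero, mul_zero]
  rw [Finset.sum_congr rfl h3, Finset.sum_comm]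
  unfold dela
  rw [← Finset.sum_range_reflect]
  refine Finset.sum_congr rfl fun i hi => ?_
  have hi' : i ≤ m := by have := Finset.mem_range.1 hi; omega
  rw [show m + 1 - 1 - i = m - i by omega, Nat.choose_symm hi']
  have hv := vdm (m - i) m 0
  -- the inner sum
  have h4 : ∑ j ∈ range (m + 1), (m.choose j : ℚ) ^ 2 * (j.choose i : ℚ) =
      (m.choose i : ℚ) * ∑ j ∈ range (m + 1), (m.choose j : ℚ) * ((m - i).choose (j - i) : ℚ) *
        (if i ≤ j then 1 else 0) := by
    rw [Finset.mul_sum]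
    refine Finset.sum_congr rfl fun j hj => ?_
    have hj' : j ≤ m := by have := Finset.mem_range.1 hj; omega
    split_ifs with hij
    · have := Nat.choose_mul (n := m) hij
      have h5 : (m.choose j : ℚ) * (j.choose i : ℚ) = (m.choose i : ℚ) * ((m - i).choose (j - i) : ℚ) := by
        exact_mod_cast this
      linear_combination (m.choose j : ℚ) * h5
    · rw [Nat.choose_eq_zero_of_lt (show j < i by omega)]
      ring
  rw [h4]
  congr 1
  have h6 : ∑ j ∈ range (m + 1), (m.choose j : ℚ) * ((m - i).choose (j - i) : ℚ) *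
        (if i ≤ j then 1 else 0) =
      ∑ k ∈ range (m - i + 1), ((m - i).choose k : ℚ) * (m.choose (k + i) : ℚ) := by
    rw [show m + 1 = i + (m - i + 1) by omega, Finset.sum_range_add]
    rw [Finset.sum_eq_zero, zero_add]
    · refine Finset.sum_congr rfl fun k _ => ?_
      rw [if_pos (by omega), Nat.add_sub_cancel_left, add_comm i k]
      rw [show k + i = k + i by rfl]
      ring_nf
      try rfl
    · intro j hj
      have := Finset.mem_range.1 hj
      rw [if_neg (by omega), mul_zero]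
  rw [h6]
  have hv2 := vdm (m - i) m i
  have : (m - i) + i = m := by omega
  rw [this] at hv2
  have h7 : ((m + (m - i)).choose m : ℚ) = ((m + (m - i)).choose (m - i) : ℚ) := by
    have := Nat.choose_symm_add (a := m) (b := m - i)
    exact_mod_cast this
  rw [← h7, ← hv2]
  push_cast
  rfl

theorem mom_dela (m : ℕ) : LB (2 : ℚ) 3 (X ^ m) = dela m := by
  have h := mom0 (2 : ℚ) m
  have h3 : (1 + 2 : ℚ) = 3 := by norm_num
  rw [h3] at h
  rw [h, dela_eq]

end Pool.Agent.J4H74.Pfa
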