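import Pool.Agent.J4H74.Pfa.Mom

/-!
# Narayana and Schroeder moments
-/

set_option autoImplicit false

namespace Pool.Agent.J4H74.Pfa

open Matrix Finset Polynomial LaurentPolynomial

/-- the Narayana number `N(m+1, j+1)` -/
def nr (m j : ℕ) : ℚ := (1 / ((m : ℚ) + 1)) * (((m + 1).choose (j + 1) : ℚ) * ((m + 1).choose j : ℚ))

/-- the product `C(m,j+1) C(m,j-1)` -/
def dd (m j : ℕ) : ℚ := if j = 0 then 0 else (m.choose (j + 1) : ℚ) * (m.choose (j - 1) : ℚ)

theorem nr_eq (m j : ℕ) (hj : j ≤ m) : nr m j = (m.choose j : ℚ) ^ 2 - dd m j := by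
  unfold nr dd
  obtain ⟨d, rfl⟩ := Nat.exists_eq_add_of_le hj
  have h1 : ((j + d + 1).choose (j + 1) : ℚ) * ((j : ℚ) + 1) =
      ((j : ℚ) + d + 1) * ((j + d).choose j : ℚ) := by
    have := Nat.add_one_mul_choose_eq (j + d) j
    exact_mod_cast this.symm
  have h2 : ((j + d + 1).choose j : ℚ) * ((d : ℚ) + 1) =
      ((j : ℚ) + d + 1) * ((j + d).choose j : ℚ) := by
    have := Nat.add_one_mul_choose_eq (j + d) d
    have e1 : (j + d).choose d = (j + d).choose j := by
      rw [← Nat.choose_symm_add (a := j) (b := d)]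
    have e2 : (j + d + 1).choose (d + 1) = (j + d + 1).choose j := by
      have := Nat.choose_symm_add (a := j) (b := d + 1)
      rw [show j + (d + 1) = j + d + 1 by ring] at this
      exact this.symm
    rw [e1, e2] at this
    exact_mod_cast this.symm
  have hj1 : (j : ℚ) + 1 ≠ 0 := by positivity
  have hd1 : (d : ℚ) + 1 ≠ 0 := by positivity
  have hm1 : ((j + d : ℕ) : ℚ) + 1 ≠ 0 := by positivity
  have e1 : ((j + d + 1).choose (j + 1) : ℚ) = ((j : ℚ) + d + 1) * ((j + d).choose j : ℚ) / ((j : ℚ) + 1) := by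
    field_simp
    exact h1
  have e2 : ((j + d + 1).choose j : ℚ) = ((j : ℚ) + d + 1) * ((j + d).choose j : ℚ) / ((d : ℚ) + 1) := by
    field_simp
    exact h2
  rw [e1, e2]
  have h3 : ((j + d).choose (j + 1) : ℚ) * ((j : ℚ) + 1) = ((j + d).choose j : ℚ) * d := by
    have := Nat.choose_succ_right_eq (j + d) j
    rw [Nat.add_sub_cancel_left] at this
    exact_mod_cast this
  have e3 : ((j + d).choose (j + 1) : ℚ) = ((j + d).choose j : ℚ) * d / ((j : ℚ) + 1) := by
    field_simp
    exact h3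
  split_ifs with hj0
  · subst hj0
    push_cast
    simp only [zero_add, Nat.choose_zero_right, Nat.cast_one, Nat.cast_zero]
    field_simp
    ring
  · obtain ⟨i, rfl⟩ := Nat.exists_eq_succ_of_ne_zero hj0
    have h4 : ((i + 1 + d).choose (i + 1) : ℚ) * ((i : ℚ) + 1) = ((i + 1 + d).choose i : ℚ) * ((d : ℚ) + 1) := by
      have := Nat.choose_succ_right_eq (i + 1 + d) i
      rw [show i + 1 + d - i = d + 1 by omega] at this
      exact_mod_cast this
    have e4 : ((i + 1 + d).choose i : ℚ) = ((i + 1 + d).choose (i + 1) : ℚ) * ((i : ℚ) + 1) / ((d : ℚ) + 1) := by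
      field_simp
      linear_combination -h4
    simp only [Nat.succ_eq_add_one] at *
    rw [show i + 1 - 1 = i by omega, e3, e4]
    push_cast at *
    field_simp
    ring

section gen

variable {R : Type*} [CommRing R] [Algebra ℚ R] (a : R)

theorem mom_nar (m : ℕ) : LA a (1 + a) a (X ^ m) =
    ∑ j ∈ range (m + 1), algebraMap ℚ R (nr m j) * a ^ (j + 1) := by
  have h1 : ∑ j ∈ range (m + 1), algebraMap ℚ R (nr m j) * a ^ (j + 1) =
      (∑ j ∈ range (m + 1), (m.choose j : R) ^ 2 * a ^ (j + 1)) -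
      ∑ j ∈ range (m + 1), algebraMap ℚ R (dd m j) * a ^ (j + 1) := by
    rw [← Finset.sum_sub_distrib]
    refine Finset.sum_congr rfl fun j hj => ?_
    rw [nr_eq m j (by have := Finset.mem_range.1 hj; omega), map_sub, map_pow, map_natCast]
    ring
  have h2 : ∑ j ∈ range (m + 1), algebraMap ℚ R (dd m j) * a ^ (j + 1) =
      ∑ j ∈ range (m + 1), (m.choose (j + 2) : R) * (m.choose j : R) * a ^ (j + 2) := by
    rw [Finset.sum_range_succ', Finset.sum_range_succ]
    rw [Nat.choose_eq_zero_of_lt (show m < m + 2 by omega)]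
    have : dd m 0 = 0 := by simp [dd]
    rw [this, map_zero, zero_mul, Nat.cast_zero, zero_mul, zero_mul, add_zero, add_zero]
    refine Finset.sum_congr rfl fun j _ => ?_
    unfold dd
    rw [if_neg (by omega), map_mul, map_natCast, map_natCast]
    rw [Nat.add_sub_cancel]
  rw [mom1, h1, h2, mul_sub, Finset.mul_sum, Finset.mul_sum]
  congr 1
  · refine Finset.sum_congr rfl fun j _ => ?_
    ring
  · refine Finset.sum_congr rfl fun j _ => ?_
    ring

end gen

/-- Narayana polynomials over the rationals. -/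
noncomputable def nara (n : ℕ) : ℚ[X] :=
  if n = 0 then 1 else ∑ k ∈ range (n + 1),
    Polynomial.C ((1 / (n : ℚ)) * (n.choose k : ℚ) * (if k = 0 then 0 else (n.choose (k - 1) : ℚ))) * X ^ k

theorem nara_succ (m : ℕ) : nara (m + 1) =
    ∑ j ∈ range (m + 1), Polynomial.C (nr m j) * X ^ (j + 1) := by
  unfold nara
  rw [if_neg (by omega), Finset.sum_range_succ', if_pos rfl, mul_zero, map_zero, zero_mul, add_zero]
  refine Finset.sum_congr rfl fun j _ => ?_
  rw [if_neg (by omega), Nat.add_sub_cancel]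
  unfold nr
  push_cast
  congr 2
  ring

/-- Schroeder numbers. -/
def schr (n : ℕ) : ℚ := ∑ k ∈ range (n + 1), ((n + k).choose (2 * k) : ℚ) * cat k

theorem schr_aux1 (n i j : ℕ) (hj : j < n) (hi : i ≤ n) :
    n.choose (j + 1) * (j + 1).choose i = n.choose i * (n - i).choose (n - 1 - j) := by
  rcases Nat.lt_or_ge (j + 1) i with h | h
  · rw [Nat.choose_eq_zero_of_lt h, Nat.choose_eq_zero_of_lt (show n - i < n - 1 - j by omega),
      mul_zero, mul_zero]
  · rw [Nat.choose_mul (n := n) h]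
    congr 1
    have : n - 1 - j = (n - i) - (j + 1 - i) := by omega
    rw [this, Nat.choose_symm (by omega)]

theorem schr_aux2 (m k : ℕ) (hk : k ≤ m + 1) :
    (1 / ((m : ℚ) + 1)) * ((m + 1).choose k : ℚ) * ((m + 1 + k).choose (k + 1) : ℚ) =
      ((m + 1 + k).choose (2 * k) : ℚ) * cat k := by
  unfold cat
  obtain ⟨d, hd⟩ := Nat.exists_eq_add_of_le hk
  rw [Nat.cast_choose ℚ hk, Nat.cast_choose ℚ (show k + 1 ≤ m + 1 + k by omega),
    Nat.cast_choose ℚ (show 2 * k ≤ m + 1 + k by omega), Nat.cast_choose ℚ (show k ≤ 2 * k by omega)]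
  rw [show m + 1 - k = d by omega, show m + 1 + k - (k + 1) = m by omega,
    show m + 1 + k - 2 * k = d by omega, show 2 * k - k = k by omega]
  rw [Nat.factorial_succ m, Nat.factorial_succ k]
  have h1 : (m.factorial : ℚ) ≠ 0 := by exact_mod_cast Nat.factorial_ne_zero m
  have h2 : (k.factorial : ℚ) ≠ 0 := by exact_mod_cast Nat.factorial_ne_zero k
  have h3 : (d.factorial : ℚ) ≠ 0 := by exact_mod_cast Nat.factorial_ne_zero d
  have h4 : ((2 * k).factorial : ℚ) ≠ 0 := by exact_mod_cast Nat.factorial_ne_zero (2 * k)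
  have h5 : (m : ℚ) + 1 ≠ 0 := by positivity
  have h6 : (k : ℚ) + 1 ≠ 0 := by positivity
  push_cast
  field_simp

theorem schr_eq (m : ℕ) : schr (m + 1) = ∑ j ∈ range (m + 1), nr m j * 2 ^ (j + 1) := by
  have h2 : ∀ j : ℕ, (2 : ℚ) ^ j = ∑ i ∈ range (j + 1), (j.choose i : ℚ) := by
    intro j
    exact_mod_cast (Nat.sum_range_choose j).symm
  have h3 : ∀ j ∈ range (m + 1), nr m j * 2 ^ (j + 1) =
      ∑ i ∈ range (m + 1 + 1), nr m j * ((j + 1).choose i : ℚ) := by
    intro j hj
    have hj' := Finset.mem_range.1 hj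
    rw [h2, Finset.mul_sum]
    apply Finset.sum_subset
    · intro l hl
      rw [Finset.mem_range] at hl ⊢
      omega
    · intro l _ hl
      rw [Finset.mem_range, not_lt] at hl
      rw [Nat.choose_eq_zero_of_lt (show j + 1 < l by omega), Nat.cast_zero, mul_zero]
  rw [Finset.sum_congr rfl h3, Finset.sum_comm]
  unfold schr
  rw [← Finset.sum_range_reflect (fun i => ∑ j ∈ range (m + 1), nr m j * ((j + 1).choose i : ℚ))]
  refine Finset.sum_congr rfl fun k hk => ?_
  have hk' : k ≤ m + 1 := by have := Finset.mem_range.1 hk; omega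
  rw [← schr_aux2 m k hk', show m + 1 + 1 - 1 - k = m + 1 - k by omega]
  have h4 : ∀ j ∈ range (m + 1), nr m j * ((j + 1).choose (m + 1 - k) : ℚ) =
      (1 / ((m : ℚ) + 1)) * ((m + 1).choose k : ℚ) *
        (((m + 1).choose j : ℚ) * (k.choose (m - j) : ℚ)) := by
    intro j hj
    have hj' := Finset.mem_range.1 hj
    have h5 := schr_aux1 (m + 1) (m + 1 - k) j hj' (by omega)
    rw [Nat.choose_symm hk', show m + 1 - (m + 1 - k) = k by omega,
      show m + 1 - 1 - j = m - j by omega] at h5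
    have h6 : ((m + 1).choose (j + 1) : ℚ) * ((j + 1).choose (m + 1 - k) : ℚ) =
        ((m + 1).choose k : ℚ) * (k.choose (m - j) : ℚ) := by exact_mod_cast h5
    unfold nr
    linear_combination (1 / ((m : ℚ) + 1)) * ((m + 1).choose j : ℚ) * h6
  rw [Finset.sum_congr rfl h4, ← Finset.mul_sum]
  congr 1
  have h7 := Nat.add_choose_eq (m + 1) k m
  rw [Finset.Nat.sum_antidiagonal_eq_sum_range_succ_mk] at h7
  have h8 : (m + 1 + k).choose (k + 1) = (m + 1 + k).choose m := by
    have := Nat.choose_symm_add (a := m) (b := k + 1)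
    rw [show m + (k + 1) = m + 1 + k by ring] at this
    exact this.symm
  rw [h8, h7]
  push_cast
  rfl

end Pool.Agent.J4H74.Pfa
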